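import Pool.Agent.H47.PL.Targets

/-!
# Row OSC of the board pln_modules: clauses satisfied by one or two assignments
-/

set_option autoImplicit false

namespace Pool.Agent.H32.PLN

open Finset Pool.Agent.H97.RK Pool.Agent.H47.PL

open Classical in
/-- the clauses with variables in `V` and all signs forced -/
noncomputable def Fs (n k : ℕ) (σ : Fin n → Bool) (V : Finset (Fin n)) :
    Finset (Fin k → Fin n × Bool) :=
  (Om n k).filter fun g => ∀ i, (g i).1 ∈ V ∧ (g i).2 = !(σ (g i).1)

theorem mem_Fs {n k : ℕ} {σ : Fin n → Bool} {V : Finset (Fin n)} {g : Fin k → Fin n × Bool} :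
    g ∈ Fs n k σ V ↔ g ∈ Om n k ∧ ∀ i, (g i).1 ∈ V ∧ (g i).2 = !(σ (g i).1) := by
  classical
  unfold Fs
  rw [mem_filter]

theorem card_Fs (n k : ℕ) (σ : Fin n → Bool) (V : Finset (Fin n)) :
    (Fs n k σ V).card = V.card.descFactorial k := by
  classical
  have h1 : Fintype.card (Fin k ↪ V) = V.card.descFactorial k := by
    rw [Fintype.card_embedding_eq, Fintype.card_coe, Fintype.card_fin]
  rw [← h1, ← card_univ]
  refine (Finset.card_bij' (fun (e : Fin k ↪ V) _ =>
    (fun i => ((e i : Fin n), !(σ (e i))) : Fin k → Fin n × Bool))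
    (fun g hg => (⟨fun i => ⟨(g i).1, ((mem_Fs.1 hg).2 i).1⟩, fun a b hab =>
      mem_Om.1 (mem_Fs.1 hg).1 (congrArg Subtype.val hab)⟩ : Fin k ↪ V))
    ?_ ?_ ?_ ?_).symm
  · intro e _
    rw [mem_Fs, mem_Om]
    refine ⟨fun a b hab => e.injective (Subtype.ext hab), fun i => ⟨(e i).2, rfl⟩⟩
  · intro g hg
    exact mem_univ _
  · intro e _
    rfl
  · intro g hg
    funext i
    exact Prod.ext rfl ((mem_Fs.1 hg).2 i).2.symm

theorem bne_iff (a b : Bool) : a ≠ b ↔ b = !a := by
  cases a <;> cases b <;> simp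

theorem pf_OSC : T_OSC := by
  classical
  intro n k σ τ
  have hmem : ∀ (σ : Fin n → Bool) (g : Fin k → Fin n × Bool),
      g ∈ Os n k σ ↔ g ∈ Om n k ∧ g ∉ Fs n k σ univ := by
    intro σ g
    unfold Os
    rw [mem_filter, mem_Fs]
    constructor
    · rintro ⟨h1, i, hi⟩
      refine ⟨h1, fun h2 => ?_⟩
      have h3 := (h2.2 i).2
      rw [← bne_iff] at h3
      exact h3 hi
    · rintro ⟨h1, h2⟩
      refine ⟨h1, ?_⟩
      by_contra hcon
      push Not at hcon
      exact h2 ⟨h1, fun i => ⟨mem_univ _, (bne_iff _ _).mp (hcon i)⟩⟩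
  have hsub : ∀ σ : Fin n → Bool, Fs n k σ univ ⊆ Om n k := fun σ g hg => (mem_Fs.1 hg).1
  have hOs : ∀ σ : Fin n → Bool, Os n k σ = Om n k \ Fs n k σ univ := by
    intro σ
    ext g
    rw [hmem, mem_sdiff]
  have hcF : ∀ σ : Fin n → Bool, (Fs n k σ univ).card = n.descFactorial k := by
    intro σ
    rw [card_Fs, card_univ, Fintype.card_fin]
  constructor
  · rw [hOs, card_sdiff_of_subset (hsub σ), hcF, card_Om, Nat.sub_mul, one_mul]
  · have h1 : Os n k σ ∩ Os n k τ = Om n k \ (Fs n k σ univ ∪ Fs n k τ univ) := by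
      ext g
      rw [mem_inter, hmem, hmem, mem_sdiff, mem_union]
      tauto
    have h2 : Fs n k σ univ ∩ Fs n k τ univ = Fs n k σ (univ.filter fun u => σ u = τ u) := by
      ext g
      rw [mem_inter, mem_Fs, mem_Fs, mem_Fs]
      constructor
      · rintro ⟨⟨h1, h2⟩, -, h3⟩
        refine ⟨h1, fun i => ⟨?_, (h2 i).2⟩⟩
        rw [mem_filter]
        refine ⟨mem_univ _, ?_⟩
        have h4 := (h2 i).2
        rw [(h3 i).2] at h4
        exact (Bool.not_inj h4).symm
      · rintro ⟨h1, h2⟩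
        refine ⟨⟨h1, fun i => ⟨mem_univ _, (h2 i).2⟩⟩, h1, fun i => ⟨mem_univ _, ?_⟩⟩
        have h3 := (mem_filter.1 (h2 i).1).2
        rw [← h3]
        exact (h2 i).2
    have h3 : (univ.filter fun u => σ u = τ u).card = n - dst σ τ := by
      have h4 := card_filter_add_card_filter_not (s := (univ : Finset (Fin n)))
        (fun u => σ u = τ u)
      rw [card_univ, Fintype.card_fin] at h4
      have h5 : (univ.filter fun u => ¬ σ u = τ u).card = dst σ τ := by
        unfold dst
        rfl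
      omega
    have h4 := card_union_add_card_inter (Fs n k σ univ) (Fs n k τ univ)
    rw [h2, card_Fs, h3, hcF, hcF] at h4
    have h5 : Fs n k σ univ ∪ Fs n k τ univ ⊆ Om n k := union_subset (hsub σ) (hsub τ)
    have h6 := card_sdiff_add_card_eq_card h5
    rw [← h1, card_Om] at h6
    omega

end Pool.Agent.H32.PLN
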