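import Pool.Agent.H47.PL.Targets

/-!
# Row PAD of the board pln_modules: the leaves are made deep
-/

set_option autoImplicit false

namespace Pool.Agent.H32.PLN

open Finset Pool.Agent.H97.RK Pool.Agent.H47.PL

variable {n k m : ℕ}

theorem con_insert {L : Finset (Fin n × Bool)} (hL : Con L) (v : Fin n) (b : Bool)
    (h : (v, !b) ∉ L) : Con (insert (v, b) L) := by
  intro u c hu hu'
  rw [mem_insert] at hu hu'
  rcases hu with hu | hu
  · obtain ⟨rfl, rfl⟩ := Prod.mk.inj hu
    rcases hu' with hu' | hu'
    · have := (Prod.mk.inj hu').2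
      cases c <;> simp at this
    · exact h hu'
  · rcases hu' with hu' | hu'
    · obtain ⟨rfl, rfl⟩ := Prod.mk.inj hu'
      rw [Bool.not_not] at h
      exact h hu
    · exact hL u c hu hu'

theorem chain_ok (F : Fml n k m) (Ex : Finset (Fin n × Bool) → Prop) (l : List (Fin n)) :
    ∀ L : Finset (Fin n × Bool), Done F L → Con L → (∀ v, v ∈ dm L ∨ v ∈ l) →
      FindD F Ex (chain l) L := by
  induction l with
  | nil =>
    intro L hD _ hv
    exact ⟨hD, fun v => (hv v).resolve_right (List.not_mem_nil)⟩
  | cons v l ih =>
    intro L hD hC hv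
    have key : ∀ b, (v, !b) ∉ L → FindD F Ex (chain l) (insert (v, b) L) := by
      intro b hb
      refine ih _ (fun c => ?_) (con_insert hC v b hb) (fun u => ?_)
      · obtain ⟨i, hi⟩ := hD c
        exact ⟨i, mem_insert_of_mem hi⟩
      · rcases hv u with hu | hu
        · left
          unfold dm at hu ⊢
          rw [mem_image] at hu ⊢
          obtain ⟨x, hx, hxu⟩ := hu
          exact ⟨x, mem_insert_of_mem hx, hxu⟩
        · rcases List.mem_cons.mp hu with hu | hu
          · left
            unfold dm
            rw [mem_image]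
            exact ⟨(v, b), mem_insert_self _ _, hu.symm⟩
          · exact Or.inr hu
    by_cases ht : (v, true) ∈ L
    · have h1 : (v, !true) ∉ L := hC v true ht
      exact ⟨true, h1, Or.inl ht, key true h1⟩
    · exact ⟨false, ht, Or.inr (Or.inl rfl), key false ht⟩

theorem pad_ok (F : Fml n k m) (Ex : Finset (Fin n × Bool) → Prop) (P : Prot n k m) :
    ∀ L : Finset (Fin n × Bool), Con L → FindP F Ex P L → FindD F Ex (pad P) L := by
  induction P with
  | leaf =>
    intro L hC hD
    exact chain_ok F Ex _ L hD hC fun v => Or.inr (List.mem_finRange v)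
  | read c f ih =>
    intro L hC h
    exact ih _ L hC h
  | node v a f ih =>
    intro L hC h
    obtain ⟨b, h1, h2, h3⟩ := h
    exact ⟨b, h1, h2, ih b _ (con_insert hC v b h1) h3⟩

theorem reads_chain (l : List (Fin n)) (q : ℕ) : Reads (chain l : Prot n k m) q := by
  induction l with
  | nil => exact trivial
  | cons v l ih => exact fun _ => ih

theorem reads_pad (P : Prot n k m) : ∀ q, Reads P q → Reads (pad P) q := by
  induction P with
  | leaf => exact fun q _ => reads_chain _ q
  | read c f ih => exact fun q h => ⟨h.1, fun x => ih x _ (h.2 x)⟩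
  | node v a f ih => exact fun q h b => ih b q (h b)

theorem pf_PAD : T_PAD := by
  intro n k m F Ex P
  refine ⟨fun h => pad_ok F Ex P ∅ (fun v b hv => absurd hv (notMem_empty _)) h, reads_pad P⟩

end Pool.Agent.H32.PLN
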