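import Pool.Agent.H47.PL.Targets

/-!
# Row PL1 of the board pln_modules: formulas without the property X1
-/

set_option autoImplicit false

namespace Pool.Agent.H32.PLN

open Finset Pool.Agent.H97.RK Pool.Agent.H47.PL

theorem desc_two (m s : ℕ) : m.descFactorial s * 2 ^ s ≤ (2 * m).descFactorial s := by
  induction s with
  | zero => simp
  | succ s ih =>
    rw [Nat.descFactorial_succ, Nat.descFactorial_succ, pow_succ]
    calc (m - s) * m.descFactorial s * (2 ^ s * 2) =
        ((m - s) * 2) * (m.descFactorial s * 2 ^ s) := by ring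
      _ ≤ (2 * m - s) * (2 * m).descFactorial s := Nat.mul_le_mul (by omega) ih

theorem choose_two (m s : ℕ) : m.choose s * 2 ^ s ≤ (2 * m).choose s := by
  have h1 := desc_two m s
  rw [Nat.descFactorial_eq_factorial_mul_choose, Nat.descFactorial_eq_factorial_mul_choose,
    mul_assoc] at h1
  exact Nat.le_of_mul_le_mul_left h1 (Nat.factorial_pos s)

open Classical in
theorem pf_PL1 : T_PL1 := by
  intro n k m j s₀ Ω hn hk hs hΩ hcard
  have hn' : (0 : ℝ) < n := by exact_mod_cast hn
  have hO : (0 : ℝ) < (Om n k).card := by exact_mod_cast card_Om_pos hk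
  have hcard' : ((Om n k).card : ℝ) ≤ 2 * Ω.card := by exact_mod_cast hcard
  have hN : (0 : ℝ) < Ω.card := by linarith
  obtain ⟨ct, hct⟩ : ∃ ct : ℕ → Finset (Fin n) → Finset (Fml n k m), ∀ s U, ct s U =
    univ.filter fun F : Fml n k m => (∀ c, F c ∈ Ω) ∧
      s ≤ (univ.filter fun c => Pool.Agent.H11.RKS.pU j U (F c)).card := ⟨_, fun _ _ => rfl⟩
  have h1 : (univ.filter fun F : Fml n k m => (∀ c, F c ∈ Ω) ∧ ¬ X1 F j s₀) ⊆
      (Icc 1 s₀).biUnion fun s => (powersetCard s (univ : Finset (Fin n))).biUnion fun U =>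
        ct s U := by
    intro F hF
    rw [mem_filter] at hF
    have h2 := hF.2.2
    unfold X1 at h2
    push Not at h2
    obtain ⟨U, s, h3, h4, h5, h6⟩ := h2
    obtain ⟨U', hU, hc⟩ := exists_superset_card_eq h5 (by
      rw [Fintype.card_fin]
      omega)
    rw [mem_biUnion]
    refine ⟨s, mem_Icc.mpr ⟨h3, h4⟩, ?_⟩
    rw [mem_biUnion]
    refine ⟨U', mem_powersetCard.mpr ⟨subset_univ _, hc⟩, ?_⟩
    rw [hct, mem_filter]
    refine ⟨mem_univ _, hF.2.1, h6.trans (card_le_card fun c hc' => ?_)⟩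
    rw [mem_filter] at hc' ⊢
    refine ⟨mem_univ _, (show j ≤ (univ.filter fun i => (F c i).1 ∈ U').card from
      (show j ≤ (univ.filter fun i => (F c i).1 ∈ U).card from hc'.2).trans
        (card_le_card fun i hi => ?_))⟩
    rw [mem_filter] at hi ⊢
    exact ⟨mem_univ _, hU hi.2⟩
  have h2 : ∀ s ∈ Icc 1 s₀, ∀ U ∈ powersetCard s (univ : Finset (Fin n)),
      ((ct s U).card : ℝ) ≤ (2 * m).choose s * (k.choose j * ((s : ℝ) / n) ^ j) ^ s *
        (Ω.card : ℝ) ^ m := by
    intro s _ U hU
    have hc := (mem_powersetCard.mp hU).2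
    have h3 := count_over' m s Ω (Pool.Agent.H11.RKS.pU j U) (ct s U) (fun F hF => by
      rw [hct, mem_filter] at hF
      exact hF.2)
    have h4 := bndD n k j hn U
    rw [hc] at h4
    have h4' : ((Ω.filter (Pool.Agent.H11.RKS.pU j U)).card : ℝ) ≤
        k.choose j * ((s : ℝ) / n) ^ j * (2 * Ω.card) := by
      have h5 : ((Ω.filter (Pool.Agent.H11.RKS.pU j U)).card : ℝ) ≤
          (((Om n k).filter (Pool.Agent.H11.RKS.pU j U)).card : ℝ) := by
        exact_mod_cast card_le_card (filter_subset_filter _ hΩ)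
      refine h5.trans (h4.trans ?_)
      exact mul_le_mul_of_nonneg_left hcard' (by positivity)
    have h6 : ((m.choose s : ℕ) : ℝ) * 2 ^ s ≤ ((2 * m).choose s : ℕ) := by
      exact_mod_cast choose_two m s
    have h5 : ((ct s U).card : ℝ) * (Ω.card : ℝ) ^ s ≤
        (2 * m).choose s * (k.choose j * ((s : ℝ) / n) ^ j) ^ s * (Ω.card : ℝ) ^ m *
          (Ω.card : ℝ) ^ s := by
      refine h3.trans ?_
      calc _ ≤ (m.choose s : ℝ) * (k.choose j * ((s : ℝ) / n) ^ j * (2 * Ω.card)) ^ s *
              (Ω.card : ℝ) ^ m := by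
              refine mul_le_mul_of_nonneg_right ?_ (by positivity)
              refine mul_le_mul_of_nonneg_left ?_ (by positivity)
              exact pow_le_pow_left₀ (by positivity) h4' s
          _ = ((m.choose s : ℝ) * 2 ^ s) * ((k.choose j * ((s : ℝ) / n) ^ j) ^ s *
              (Ω.card : ℝ) ^ m * (Ω.card : ℝ) ^ s) := by
              rw [mul_pow, mul_pow]
              ring
          _ ≤ (((2 * m).choose s : ℕ) : ℝ) * ((k.choose j * ((s : ℝ) / n) ^ j) ^ s *
              (Ω.card : ℝ) ^ m * (Ω.card : ℝ) ^ s) :=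
              mul_le_mul_of_nonneg_right h6 (by positivity)
          _ = _ := by ring
    exact le_of_mul_le_mul_right h5 (by positivity)
  calc ((univ.filter fun F : Fml n k m => (∀ c, F c ∈ Ω) ∧ ¬ X1 F j s₀).card : ℝ)
      ≤ (((Icc 1 s₀).biUnion fun s => (powersetCard s (univ : Finset (Fin n))).biUnion fun U =>
        ct s U).card : ℝ) := by exact_mod_cast card_le_card h1
    _ ≤ ∑ s ∈ Icc 1 s₀, ∑ U ∈ powersetCard s (univ : Finset (Fin n)), ((ct s U).card : ℝ) := by
        have h3 : (((Icc 1 s₀).biUnion fun s =>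
            (powersetCard s (univ : Finset (Fin n))).biUnion fun U => ct s U).card) ≤
            ∑ s ∈ Icc 1 s₀, ∑ U ∈ powersetCard s (univ : Finset (Fin n)), (ct s U).card :=
          card_biUnion_le.trans (sum_le_sum fun s _ => card_biUnion_le)
        exact_mod_cast h3
    _ ≤ ∑ s ∈ Icc 1 s₀, ∑ U ∈ powersetCard s (univ : Finset (Fin n)),
        ((2 * m).choose s * (k.choose j * ((s : ℝ) / n) ^ j) ^ s * (Ω.card : ℝ) ^ m) :=
        sum_le_sum fun s hs' => sum_le_sum fun U hU => h2 s hs' U hU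
    _ = _ := by
        rw [sum_mul]
        refine sum_congr rfl fun s _ => ?_
        rw [sum_const, card_powersetCard, card_univ, Fintype.card_fin, nsmul_eq_mul]
        ring

end Pool.Agent.H32.PLN
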